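import Mathlib
import Pool.Agent.N818.SN.Stm3
import Pool.Agent.N916.AM.Asy

/-!
# SN/AMF: the density machine with an event depending on the numbers of primes in the classes

After helper916's files `Pool/Agent/N916/AM/{Key,Asy}.lean` (after helper218, helper226, R413).
-/

set_option autoImplicit false

open scoped Classical

namespace Pool.Agent.N323.SN.AMF

section

open Finset
open Pool.Agent.Y703.CX (sm la jj XX)
open Pool.Agent.N916.GB (Po SA ps HB S_EQ S_BIL)
open Pool.Agent.Y703.CQ (nr sg)
open Pool.Agent.N916.AM Pool.Agent.N916.AM.KEY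
open Pool.Agent.N818.SN (cn)

/-- the sum over the boxes with an event which depends only on the key -/
theorem keyA (hBIL : S_BIL) (hEQ : S_EQ) {M : ℕ} (hM : 8 ∣ M) (hM0 : 0 < M) {K : Finset ℕ}
    {G : Finset ℕ → Prop} {c : ℝ} (hL : LAH M K G c) : ∀ ε : ℝ, 0 < ε →
  ∃ (V₀ : ℕ) (C : ℝ), 1 ≤ V₀ ∧ 1 ≤ C ∧
  ∀ (X z H k N : ℕ) (κ : ℝ), 1 ≤ X → 1 ≤ H → 1 ≤ z → M ≤ z → 0 ≤ κ → C ≤ κ ^ 12 * z →
  (H : ℝ) * Real.log X < N → ∀ P : Finset ℕ → Prop,
  (∀ S ∈ RR M K X z H k V₀, ∀ S' ∈ RR M K X z H k V₀, ky M z H S = ky M z H S' → P S → P S') →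
  |(((RR M K X z H k V₀).filter fun S => P S ∧ (Nd M (sm z S) (la z S) ∧ G S)).card : ℝ) -
      c * (((RR M K X z H k V₀).filter fun S => P S ∧ Nd M (sm z S) (la z S)).card : ℝ)| ≤
    ε * ((RR M K X z H k V₀).card : ℝ) +
    (M * N + M : ℝ) ^ k * (3 ^ (9 * k ^ 2 + 9) * κ) * (X * (1 + Real.log X)) := by
  intro ε hε
  obtain ⟨C, hC1, hB⟩ := hBIL
  obtain ⟨V', hV'⟩ := hL ε hε
  obtain ⟨V, hV1, hVV⟩ : ∃ V : ℕ, 1 ≤ V ∧ V' ≤ V := ⟨V' + 1, by omega, by omega⟩
  have hV : BoxS M K G c ε V := by
    apply box hEQ hM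
    intro ι _ _ S₀ p h1 h2 h3 h4 h5 h6
    refine hV' ι S₀ p h1 h2 h3 h4 h5 fun a ha hac => le_trans ?_ (h6 a ha hac)
    exact Nat.mul_le_mul_right _ hVV
  refine ⟨V, C, hV1, hC1, ?_⟩
  intro X z H k N κ hX hH hz hMz hκ hκz hN P hP
  set T := (RR M K X z H k V).image (ky M z H) with hT
  set B : ℝ := 3 ^ (9 * k ^ 2 + 9) * κ with hBd
  have hB0 : 0 ≤ B := by positivity
  have hfib : ∀ (P : Finset ℕ → Prop) [DecidablePred P],
      (((RR M K X z H k V).filter fun S => P S).card : ℝ) =
      ∑ e ∈ T, (((RR M K X z H k V).filter fun S => ky M z H S = e ∧ P S).card : ℝ) := by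
    intro P _
    rw [Finset.card_eq_sum_card_fiberwise (f := ky M z H) (t := T) (by
      intro S hS
      rw [Finset.mem_coe, Finset.mem_filter] at hS
      exact Finset.mem_coe.2 (Finset.mem_image_of_mem _ hS.1))]
    push_cast
    refine Finset.sum_congr rfl fun e _ => ?_
    congr 2
    ext S
    simp only [Finset.mem_filter]
    tauto
  have hKP : ∀ e ∈ T, KP M K X z H k V e.1 e.2 := by
    intro e he
    rw [hT, Finset.mem_image] at he
    obtain ⟨S, hS, rfl⟩ := he
    obtain ⟨f1, f2, f3⟩ := rr_facts hS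
    exact (rr_iff hH f1 (inj_ph f2)).1 hS
  have hf1 := hfib fun S => P S ∧ (Nd M (sm z S) (la z S) ∧ G S)
  have hf2 := hfib fun S => P S ∧ Nd M (sm z S) (la z S)
  have hf3 := hfib fun _ => True
  simp only [and_true, Finset.filter_true] at hf3
  rw [hf1, hf2, hf3, Finset.mul_sum, ← Finset.sum_sub_distrib]
  refine (Finset.abs_sum_le_sum_abs _ _).trans ?_
  have h3 : ∀ e ∈ T, |(((RR M K X z H k V).filter fun S => ky M z H S = e ∧
        (P S ∧ (Nd M (sm z S) (la z S) ∧ G S))).card : ℝ) -
      c * (((RR M K X z H k V).filter fun S => ky M z H S = e ∧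
        (P S ∧ Nd M (sm z S) (la z S))).card : ℝ)| ≤
      ε * (((RR M K X z H k V).filter fun S => ky M z H S = e).card : ℝ) +
      B * (X / ((∏ p ∈ e.1, p : ℕ) : ℝ)) := by
    intro e he
    have hk' := hKP _ he
    rw [hT, Finset.mem_image] at he
    obtain ⟨S1, hS1, hS1e⟩ := he
    by_cases hPS : P S1
    · have g1 : ((RR M K X z H k V).filter fun S => ky M z H S = e ∧
          (P S ∧ (Nd M (sm z S) (la z S) ∧ G S))) = ((RR M K X z H k V).filter fun S =>
          ky M z H S = e ∧ (Nd M (sm z S) (la z S) ∧ G S)) := by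
        refine Finset.filter_congr fun S hS => ?_
        constructor
        · rintro ⟨a, -, b⟩
          exact ⟨a, b⟩
        · rintro ⟨a, b⟩
          exact ⟨a, hP S1 hS1 S hS (hS1e.trans a.symm) hPS, b⟩
      have g2 : ((RR M K X z H k V).filter fun S => ky M z H S = e ∧
          (P S ∧ Nd M (sm z S) (la z S))) = ((RR M K X z H k V).filter fun S =>
          ky M z H S = e ∧ Nd M (sm z S) (la z S)) := by
        refine Finset.filter_congr fun S hS => ?_
        constructor
        · rintro ⟨a, -, b⟩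
          exact ⟨a, b⟩
        · rintro ⟨a, b⟩
          exact ⟨a, hP S1 hS1 S hS (hS1e.trans a.symm) hPS, b⟩
      rw [g1, g2]
      obtain ⟨S₀, J⟩ := e
      exact per_key hε.le hV hH hM0 hMz hκ hk' (hb_box hB hH hz hκ hκz)
    · have g1 : ((RR M K X z H k V).filter fun S => ky M z H S = e ∧
          (P S ∧ (Nd M (sm z S) (la z S) ∧ G S))) = ∅ := by
        rw [Finset.filter_eq_empty_iff]
        rintro S hS ⟨a, b, -⟩
        exact hPS (hP S hS S1 hS1 (a.trans hS1e.symm) b)
      have g2 : ((RR M K X z H k V).filter fun S => ky M z H S = e ∧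
          (P S ∧ Nd M (sm z S) (la z S))) = ∅ := by
        rw [Finset.filter_eq_empty_iff]
        rintro S hS ⟨a, b, -⟩
        exact hPS (hP S hS S1 hS1 (a.trans hS1e.symm) b)
      rw [g1, g2, Finset.card_empty, Nat.cast_zero, mul_zero, sub_zero, abs_zero]
      exact add_nonneg (mul_nonneg hε.le (Nat.cast_nonneg _)) (mul_nonneg hB0
        (div_nonneg (Nat.cast_nonneg _) (Nat.cast_nonneg _)))
  refine (Finset.sum_le_sum h3).trans ?_
  rw [Finset.sum_add_distrib, ← Finset.mul_sum]
  refine add_le_add le_rfl ?_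
  have hsub : T ⊆ (TP X) ×ˢ ((range N ×ˢ range M).powerset.filter fun J => J.card ≤ k) := by
    intro e he
    have hk' := hKP e he
    rw [hT, Finset.mem_image] at he
    obtain ⟨S, hS, rfl⟩ := he
    obtain ⟨f1, f2, f3⟩ := rr_facts hS
    rw [Finset.mem_product, Finset.mem_filter, Finset.mem_powerset]
    refine ⟨mem_TP (fun q hq => cl_prime (hk'.cl q hq)) ?_, ?_, ?_⟩
    · refine le_trans ?_ f3
      exact Nat.le_of_dvd (Finset.prod_pos fun p hp => (cl_prime (f1 p hp)).pos)
        (Finset.prod_dvd_prod_of_subset _ _ _ (Finset.filter_subset _ _))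
    · intro e he
      unfold ky at he
      rw [Finset.mem_image] at he
      obtain ⟨q, hq, rfl⟩ := he
      have hqS := (Finset.mem_filter.1 hq).1
      have hq0 := (cl_prime (f1 q hqS)).pos
      have hqX : q ≤ X := by
        refine le_trans ?_ f3
        exact Nat.le_of_dvd (Finset.prod_pos fun p hp => (cl_prime (f1 p hp)).pos)
          (Finset.dvd_prod_of_mem _ hqS)
      unfold ph
      rw [Finset.mem_product, Finset.mem_range, Finset.mem_range]
      refine ⟨?_, Nat.mod_lt _ hM0⟩
      have h3 : ((jj H q : ℕ) : ℝ) < N := by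
        refine lt_of_le_of_lt (Nat.floor_le (mul_nonneg (Nat.cast_nonneg _)
          (Real.log_nonneg (by exact_mod_cast hq0)))) ?_
        refine lt_of_le_of_lt ?_ hN
        refine mul_le_mul_of_nonneg_left ?_ (Nat.cast_nonneg _)
        exact Real.log_le_log (by exact_mod_cast hq0) (by exact_mod_cast hqX)
      exact_mod_cast h3
    · have := hk'.card
      omega
  refine (Finset.sum_le_sum_of_subset_of_nonneg hsub fun _ _ _ => by positivity).trans ?_
  rw [Finset.sum_product]
  simp only [Finset.sum_const, nsmul_eq_mul]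
  rw [← Finset.mul_sum]
  have h4 : ((((range N ×ˢ range M).powerset.filter fun J => J.card ≤ k).card : ℕ) : ℝ) ≤
      (M * N + M : ℝ) ^ k := by
    have h5 := card_sub (range N ×ˢ range M) k
    rw [Finset.card_product, Finset.card_range, Finset.card_range] at h5
    calc ((((range N ×ˢ range M).powerset.filter fun J => J.card ≤ k).card : ℕ) : ℝ) ≤
          (((N * M + 1) ^ k : ℕ) : ℝ) := by exact_mod_cast h5
      _ = (N * M + 1 : ℝ) ^ k := by push_cast; ring
      _ ≤ _ := by
        apply pow_le_pow_left₀ (by positivity)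
        have h1 : (1 : ℝ) ≤ M := by exact_mod_cast hM0
        linarith
  have h5 : ∑ S ∈ TP X, B * (X / ((∏ p ∈ S, p : ℕ) : ℝ)) ≤ B * (X * (1 + Real.log X)) := by
    have h6 : ∀ S ∈ TP X, B * ((X : ℝ) / ((∏ p ∈ S, p : ℕ) : ℝ)) =
        B * X * (1 / ((∏ p ∈ S, p : ℕ) : ℝ)) := by
      intro S _
      ring
    rw [Finset.sum_congr rfl h6, ← Finset.mul_sum]
    have h7 := mul_le_mul_of_nonneg_left (harm_TP X) (mul_nonneg hB0 (Nat.cast_nonneg X))
    refine h7.trans (le_of_eq ?_)
    ring
  have h6 : 0 ≤ ∑ S ∈ TP X, B * ((X : ℝ) / ((∏ p ∈ S, p : ℕ) : ℝ)) :=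
    Finset.sum_nonneg fun _ _ => by positivity
  rw [mul_assoc]
  gcongr


/-- the numbers of the elements in the classes depend only on the key -/
theorem cn_ky {M : ℕ} {K : Finset ℕ} {X z H k V : ℕ} {S S' : Finset ℕ}
    (hS : S ∈ RR M K X z H k V) (hS' : S' ∈ RR M K X z H k V)
    (h : ky M z H S = ky M z H S') : cn M S = cn M S' := by
  have key : ∀ S ∈ RR M K X z H k V, ∀ a, cn M S a =
      ((ky M z H S).1.filter fun p => p % M = a).card +
      ((ky M z H S).2.filter fun e => e.2 = a).card := by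
    intro S hS a
    have hi := inj_ph (M := M) (rr_facts hS).2.1
    have f3 : (((la z S).image (ph M H)).filter fun e => e.2 = a).card =
        ((la z S).filter fun p => p % M = a).card := by
      rw [Finset.filter_image, Finset.card_image_of_injOn]
      · rfl
      · intro a ha b hb hab
        exact hi (Finset.mem_coe.2 (Finset.mem_filter.1 (Finset.mem_coe.1 ha)).1)
          (Finset.mem_coe.2 (Finset.mem_filter.1 (Finset.mem_coe.1 hb)).1) hab
    show (S.filter fun p => p % M = a).card = ((sm z S).filter fun p => p % M = a).card +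
      (((la z S).image (ph M H)).filter fun e => e.2 = a).card
    rw [f3]
    unfold sm la
    rw [Finset.filter_filter, Finset.filter_filter,
      ← Finset.card_filter_add_card_filter_not (s := S.filter fun p => p % M = a)
        (fun p => p ≤ z), Finset.filter_filter, Finset.filter_filter]
    congr 2
    · refine Finset.filter_congr fun p _ => ?_
      tauto
    · refine Finset.filter_congr fun p _ => ?_
      tauto
  funext a
  rw [key S hS a, key S' hS' a, h]

end

section

open Finset Filter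
open Pool.Agent.Y703.CQ (nr sg)
open Pool.Agent.N973.ND (uu)
open Pool.Agent.N916.GB (Po SA ps HB S_EQ S_BIL CntP S_ME8 S_HAL S_FE1)
open Pool.Agent.Y703.CX (sm la jj XX eL zz kk S_SIE eL_tendsto logX_eq HH NN ev_eL one_le_exp
  HH_ge HH_le HH_pos kk_ge kk_le X_pos one_add_log lin_le kap zz_ge zz_pos kap_nonneg kap_pow kap_le)
open Pool.Agent.N218.GB.Asy (Sml sml_of sml_add sml_eps sml_many sml_cut sml_coll log_three
  SA_card cmp)
open Pool.Agent.N916.AM
open Pool.Agent.N818.SN (cn)

/-- **The proportion of the good sets.** -/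
theorem t_AMF : Pool.Agent.N818.SN.S_AMF := by
  intro M K G c hM hM0 hc0 hc1 hL A ε hε
  obtain ⟨V, C, hV1, hC1, hkey⟩ := keyA Pool.Agent.N19.GB.t_BIL Pool.Agent.N19.GB.t_EQ hM hM0 hL
    (ε / 2) (by linarith)
  have hS : S_SIE := Pool.Agent.Y488.CX.t_SIE
  have hMe : S_ME8 := Pool.Agent.N19.GB.t_ME8
  have hH : S_HAL := Pool.Agent.N148.GB.t_HAL
  have hC : CntP := Pool.Agent.N502.GB.CNT.t_CNT
  have hF1 : S_FE1 := Pool.Agent.N502.GB.FE1.t_FE1
  have s1 := sml_many hC
  have s2 := sml_cut hC
  have s3 := sml_coll hC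
  have s4 := sml_sum ((range M).filter fun a => a.Coprime M) (fun a X =>
    (((SA X).filter fun S => ((la (zz X) S).filter fun p => p % M = a).card <
      V * ((sm (zz X) S).card + 1)).card : ℝ)) (fun a ha => by
        rw [mem_filter, mem_range] at ha
        exact sml_eps (Few.few hS hM0 ha.1 ha.2 V))
  have s5 := sml_eps (BAD.t_BAD hS hH hMe (B₀ := oM M) oM_po)
  have s6 := sml_eps (hF1 hS hMe 3 (by norm_num))
  have s7 := sml_eps (hF1 hS hMe 5 (by norm_num))
  have s8 := sml_main hC1 M
  have stot := sml_add (sml_add (sml_add (sml_add (sml_add (sml_add s1 s2) s3) s4) s5)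
    (sml_add s6 s7)) s8
  have hev := stot (ε / 2) (by linarith)
  have hzM : ∀ᶠ X : ℕ in atTop, M ≤ zz X := by
    filter_upwards [ev_eL (M + 1)] with X hX
    have hM' : (0 : ℝ) ≤ M := Nat.cast_nonneg _
    have h1 : (1 : ℝ) ≤ eL X := by linarith
    unfold zz
    apply Nat.le_floor
    have h3 : eL X ≤ (eL X) ^ 3 := le_self_pow₀ h1 (by norm_num)
    have h4 := Real.add_one_le_exp ((eL X) ^ 3)
    linarith
  have hev2 : ∀ᶠ X : ℕ in atTop,
      |(((SS M K X).filter fun S => A X (cn M S) ∧ G S).card : ℝ) -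
      c * (((SS M K X).filter fun S => A X (cn M S)).card : ℝ)| ≤ ε * X := by
    filter_upwards [hev, ev_eL 1, hzM] with X hX hl hzX
    have hl0 : 0 < eL X := by linarith
    have hXp := X_pos hl0
    have hNN : (HH X : ℝ) * Real.log X < NN X := by
      unfold NN
      push_cast
      exact Nat.lt_floor_add_one _
    have hmain := hkey X (zz X) (HH X) (kk X) (NN X) (kap C X) hXp (HH_pos hl0)
      (zz_pos hl) hzX (kap_nonneg hC1 X) (kap_pow hC1 hl) hNN (fun S => A X (cn M S))
      (fun S hS S' hS' hk hA => by rw [← cn_ky hS hS' hk]; exact hA)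
    set T := (RR M K X (zz X) (HH X) (kk X) V).filter
      fun S => Nd M (sm (zz X) S) (la (zz X) S) with hT
    set T' := T.filter fun S => A X (cn M S) with hT'
    have hTA : (RR M K X (zz X) (HH X) (kk X) V).filter
        (fun S => A X (cn M S) ∧ Nd M (sm (zz X) S) (la (zz X) S)) = T' := by
      rw [hT', hT, filter_filter]
      refine Finset.filter_congr fun S _ => ?_
      tauto
    have hTG : (RR M K X (zz X) (HH X) (kk X) V).filter
        (fun S => A X (cn M S) ∧ (Nd M (sm (zz X) S) (la (zz X) S) ∧ G S)) = T'.filter G := by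
      rw [hT', hT, filter_filter, filter_filter]
      refine Finset.filter_congr fun S _ => ?_
      tauto
    rw [hTG, hTA] at hmain
    have hSG : (SS M K X).filter (fun S => A X (cn M S) ∧ G S) =
        ((SS M K X).filter fun S => A X (cn M S)).filter G := by
      rw [filter_filter]
    rw [hSG]
    have hTS : T ⊆ SS M K X := (filter_subset _ _).trans (filter_subset _ _)
    have hRS : ((RR M K X (zz X) (HH X) (kk X) V).card : ℝ) ≤ X := by
      exact_mod_cast (card_le_card ((filter_subset _ _).trans (SS_sub M K X))).trans (SA_card X)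
    have hTS' : T' ⊆ (SS M K X).filter fun S => A X (cn M S) :=
      Finset.filter_subset_filter _ hTS
    have hcmp := cmp G T' ((SS M K X).filter fun S => A X (cn M S)) hTS' c hc0 hc1
    have hsd : ((((SS M K X).filter fun S => A X (cn M S)) \ T').card : ℝ) ≤
        ((SS M K X \ T).card : ℝ) := by
      have : ((SS M K X).filter fun S => A X (cn M S)) \ T' ⊆ SS M K X \ T := by
        intro S hS
        rw [Finset.mem_sdiff, Finset.mem_filter] at hS
        rw [Finset.mem_sdiff]
        exact ⟨hS.1.1, fun h => hS.2 (Finset.mem_filter.2 ⟨h, hS.1.2⟩)⟩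
      exact_mod_cast Finset.card_le_card this
    have hout : ((SS M K X \ T).card : ℝ) ≤
        ((((((SA X).filter fun S => kk X < S.card).card : ℝ) +
        (((SA X).filter fun S => S.card ≤ kk X ∧
          X < (∏ p ∈ sm (zz X) S, p) * ∏ p ∈ la (zz X) S, XX (HH X) (jj (HH X) p)).card : ℝ)) +
        (((SA X).filter fun S => ¬ Set.InjOn (jj (HH X)) (la (zz X) S : Set ℕ)).card : ℝ)) +
        (∑ a ∈ (range M).filter (fun a => a.Coprime M),
          (((SA X).filter fun S => ((la (zz X) S).filter fun p => p % M = a).card <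
          V * ((sm (zz X) S).card + 1)).card : ℝ)) +
        (((SA X).filter fun S => S.card ≤ kk X ∧
          ¬ N8 (oM M) (sm (zz X) S) (la (zz X) S)).card : ℝ)) +
        ((((SA X).filter fun S => ∀ p ∈ la (zz X) S, p % 8 ≠ 3 % 8).card : ℝ) +
        (((SA X).filter fun S => ∀ p ∈ la (zz X) S, p % 8 ≠ 5 % 8).card : ℝ)) := by
      have g := card_le_card (out_sub hM hM0 K X (zz X) (HH X) (kk X) V)
      rw [← hT] at g
      have gb : (((range M).filter fun a => a.Coprime M).biUnion fun a =>
          ((SA X).filter fun S => ((la (zz X) S).filter fun p => p % M = a).card <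
          V * ((sm (zz X) S).card + 1))).card ≤ ∑ a ∈ (range M).filter (fun a => a.Coprime M),
          ((SA X).filter fun S => ((la (zz X) S).filter fun p => p % M = a).card <
          V * ((sm (zz X) S).card + 1)).card := Finset.card_biUnion_le
      have g2 := (g.trans (card_union_le _ _)).trans (Nat.add_le_add ((card_union_le _ _).trans
        (Nat.add_le_add_right ((card_union_le _ _).trans
        (Nat.add_le_add ((card_union_le _ _).trans
        (Nat.add_le_add_right (card_union_le _ _) _)) gb)) _)) (card_union_le _ _))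
      exact_mod_cast g2
    have g1 : ε / 2 * ((RR M K X (zz X) (HH X) (kk X) V).card : ℝ) ≤ ε / 2 * X :=
      mul_le_mul_of_nonneg_left hRS (by positivity)
    linarith
  obtain ⟨X₀, h0⟩ := eventually_atTop.1 hev2
  exact ⟨X₀, fun X hX => h0 X hX⟩


end

end Pool.Agent.N323.SN.AMF
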